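import Pool.Agent.ZGO.StmtsB

/-!
# ZGO: CLO, symbols of commutators
-/

set_option autoImplicit false

namespace Pool.Agent.ZGO.H90

/-- CLO -/
theorem clo : CloStmt := by
  intro P _ p φ X _ τ ρ F M hC g h s t T U hT hU
  obtain ⟨hs, hT1, hT2⟩ := hT
  obtain ⟨ht, hU1, hU2⟩ := hU
  have hm : ∀ (a b : P) (x : X), ρ (a * b) x = ρ a (ρ b x) := fun a b x => by
    rw [map_mul]
    rfl
  have hk : ∀ x : X, ρ (g * h * g⁻¹ * h⁻¹) x - x =
      (ρ g (ρ h (ρ (g⁻¹ * h⁻¹) x) - ρ (g⁻¹ * h⁻¹) x) -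
        (ρ h (ρ (g⁻¹ * h⁻¹) x) - ρ (g⁻¹ * h⁻¹) x)) -
      (ρ h (ρ g (ρ (g⁻¹ * h⁻¹) x) - ρ (g⁻¹ * h⁻¹) x) -
        (ρ g (ρ (g⁻¹ * h⁻¹) x) - ρ (g⁻¹ * h⁻¹) x)) := by
    intro x
    have e1 : ρ (g * h * g⁻¹ * h⁻¹) x = ρ g (ρ h (ρ (g⁻¹ * h⁻¹) x)) := by
      rw [← hm, ← hm]
      congr 2
      group
    have e2 : x = ρ h (ρ g (ρ (g⁻¹ * h⁻¹) x)) := by
      rw [← hm, ← hm]
      have : h * g * (g⁻¹ * h⁻¹) = 1 := by group
      rw [this, map_one]
      rfl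
    rw [e1]
    nth_rewrite 2 [e2]
    simp only [map_sub]
    abel
  have hA : ∀ i, ∀ x ∈ F (i + (s + t)), ρ g (ρ h x - x) - (ρ h x - x) ∈ F i := by
    intro i x hx
    refine hT1 i _ (hU1 (i + s) _ ?_)
    rwa [add_assoc]
  have hB : ∀ i, ∀ x ∈ F (i + (s + t)), ρ h (ρ g x - x) - (ρ g x - x) ∈ F i := by
    intro i x hx
    refine hU1 i _ (hT1 (i + t) _ ?_)
    have : i + t + s = i + (s + t) := by omega
    rwa [this]
  refine ⟨by omega, fun i x hx => ?_, fun z => ?_⟩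
  · rw [hk x]
    exact (F i).sub_mem (hA i _ (hC.stb _ _ _ hx)) (hB i _ (hC.stb _ _ _ hx))
  · obtain ⟨z1, u1, u2⟩ := hU2 z
    obtain ⟨z2, v1, v2⟩ := hT2 z1
    obtain ⟨z3, w1, w2⟩ := hT2 z
    obtain ⟨z4, y1, y2⟩ := hU2 z3
    refine ⟨z2 - z4, ?_, fun i => ?_⟩
    · have e1 : (T * U - U * T) (QuotientAddGroup.mk z) =
          T (U (QuotientAddGroup.mk z)) - U (T (QuotientAddGroup.mk z)) := rfl
      rw [e1, u1, v1, w1, y1]
      rfl
    · set x : X := (z : ℕ → X) (i + (s + t)) with hx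
      have hxF : x ∈ F (i + (s + t) + 1) := (z.2 (i + (s + t))).1
      set f : X := ρ (g⁻¹ * h⁻¹) x - x with hf
      have hfF : f ∈ F (i + (s + t)) := hC.act _ _ _ hxF
      have hv : ρ (g⁻¹ * h⁻¹) x = x + f := by
        rw [hf]
        abel
      have e1 : x = (z : ℕ → X) (i + s + t) := by rw [hx, add_assoc]
      have e2 : x = (z : ℕ → X) (i + t + s) := by
        have : i + t + s = i + (s + t) := by omega
        rw [hx, this]
      have a1 := u2 (i + s)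
      rw [← e1] at a1
      have a2 := hT1 i _ a1
      have a3 := v2 i
      have b1 := w2 (i + t)
      rw [← e2] at b1
      have b2 := hU1 i _ b1
      have b3 := y2 i
      have c1 := hA i f hfF
      have c2 := hB i f hfF
      have hfin := (F i).add_mem ((F i).sub_mem ((F i).add_mem a2 a3) ((F i).add_mem b2 b3))
        ((F i).sub_mem c1 c2)
      have e3 : ((z2 - z4 : Wz τ F M) : ℕ → X) i = (z2 : ℕ → X) i - (z4 : ℕ → X) i := rfl
      rw [hk x, hv, e3]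
      refine (congrArg (fun y => y ∈ F i) ?_).mpr hfin
      simp only [map_sub, map_add]
      abel

end Pool.Agent.ZGO.H90
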